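import Mathlib

namespace Pool.Agent.Results.MP_69cc7e_lc.VertexLocal

open Finset

/-- `G` has no induced claw. -/
def ClawFree {V : Type*} (G : SimpleGraph V) : Prop :=
  ∀ a x y z : V, G.Adj a x → G.Adj a y → G.Adj a z → x ≠ y → x ≠ z → y ≠ z →
    (G.Adj x y ∨ G.Adj x z ∨ G.Adj y z)

/-- `S` is a triad of `G`: a stable set with exactly three vertices. -/
def IsTriad {V : Type*} (G : SimpleGraph V) (S : Finset V) : Prop :=
  S.card = 3 ∧ ∀ x ∈ S, ∀ y ∈ S, ¬ G.Adj x y

/-- `c` lies in a triad and is not adjacent to `v`. -/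
def Base {V : Type*} (G : SimpleGraph V) (v c : V) : Prop :=
  (∃ S, IsTriad G S ∧ c ∈ S) ∧ ¬ G.Adj v c

/-- The relaxation of `G` at `v`: delete every edge of `G` that meets a vertex lying in a triad
and not adjacent to `v`. -/
def relax {V : Type*} (G : SimpleGraph V) (v : V) : SimpleGraph V where
  Adj a b := G.Adj a b ∧ ¬ Base G v a ∧ ¬ Base G v b
  symm := ⟨fun _ _ h => ⟨h.1.symm, h.2.2, h.2.1⟩⟩
  loopless := ⟨fun a h => G.loopless.irrefl a h.1⟩

/-- The vertices outside the sets of `𝒞` can be grouped into pairs that are nonadjacent in `H`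
(`m x` is the partner of `x`). -/
def PairsOff {V : Type*} (H : SimpleGraph V) (𝒞 : Finset (Finset V)) : Prop :=
  ∃ m : V → V, ∀ x, (∀ S ∈ 𝒞, x ∉ S) →
    (∀ S ∈ 𝒞, m x ∉ S) ∧ m x ≠ x ∧ ¬ H.Adj x (m x) ∧ m (m x) = x

section matching

variable {U : Type*}

theorem exists_perfect_iff (D : SimpleGraph U) :
    (∃ M : D.Subgraph, M.IsPerfectMatching) ↔ ∃ m : U → U, ∀ x, D.Adj x (m x) ∧ m (m x) = x := by
  constructor
  · rintro ⟨M, hM⟩
    rw [SimpleGraph.Subgraph.isPerfectMatching_iff] at hM
    choose m hm huniq using hM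
    refine ⟨m, fun x => ⟨(hm x).adj_sub, ?_⟩⟩
    exact (huniq (m x) x (hm x).symm).symm
  · rintro ⟨m, hm⟩
    refine ⟨{ verts := Set.univ, Adj := fun x y => m x = y,
              adj_sub := ?_, edge_vert := ?_, symm := ?_ }, ?_⟩
    · intro x y h; rw [← h]; exact (hm x).1
    · intro x y _; exact Set.mem_univ _
    · constructor
      intro x y h
      show m y = x
      rw [← h]; exact (hm x).2
    · rw [SimpleGraph.Subgraph.isPerfectMatching_iff]
      intro x
      exact ⟨m x, rfl, fun y hy => (show m x = y from hy).symm⟩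

theorem local_tutte [Finite U] (D : SimpleGraph U) (hev : Even (Nat.card U))
    (T : Set (Set U))
    (hdisj : ∀ S ∈ T, ∀ S' ∈ T, ∀ x, x ∈ S → x ∈ S' → S = S')
    (hclq : ∀ S ∈ T, ∀ x ∈ S, ∀ y ∈ S, x ≠ y → D.Adj x y)
    (hdom : ∀ S ∈ T, ∀ w, w ∉ S → ∃ s ∈ S, D.Adj w s)
    (hne : ∀ S ∈ T, S.Nonempty)
    (E : U → SimpleGraph U)
    (hE : ∀ v a b, (∀ S ∈ T, v ∉ S) → (E v).Adj a b →
      D.Adj a b ∨ (D.Adj v a ∧ ∃ S ∈ T, a ∈ S) ∨ (D.Adj v b ∧ ∃ S ∈ T, b ∈ S))
    (hpm : ∀ v, (∀ S ∈ T, v ∉ S) → ∃ M : (E v).Subgraph, M.IsPerfectMatching) :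
    ∃ M : D.Subgraph, M.IsPerfectMatching := by
  classical
  by_contra hno
  obtain ⟨u, hu⟩ : ∃ u, D.IsTutteViolator u := by
    rw [SimpleGraph.tutte] at hno
    push Not at hno
    exact hno
  unfold SimpleGraph.IsTutteViolator at hu
  set H := ((⊤ : D.Subgraph).deleteVerts u).coe with hH
  have hmem : ∀ x : U, x ∉ u → x ∈ ((⊤ : D.Subgraph).deleteVerts u).verts := by
    intro x hx
    exact ⟨Set.mem_univ _, hx⟩
  have adjH : ∀ (x y : U) (hx : x ∉ u) (hy : y ∉ u), D.Adj x y →
      H.Adj ⟨x, hmem x hx⟩ ⟨y, hmem y hy⟩ := by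
    intro x y hx hy h
    rw [hH, SimpleGraph.Subgraph.coe_adj, SimpleGraph.Subgraph.deleteVerts_adj]
    exact ⟨Set.mem_univ _, hx, Set.mem_univ _, hy, h⟩
  -- every set of `T` meets `u`
  have hhit : ∀ S ∈ T, ∃ s ∈ S, s ∈ u := by
    intro S hS
    by_contra hcon
    push Not at hcon
    obtain ⟨s0, hs0⟩ := hne S hS
    have hs0u := hcon s0 hs0
    have hreach : ∀ x : ((⊤ : D.Subgraph).deleteVerts u).verts,
        H.Reachable x ⟨s0, hmem s0 hs0u⟩ := by
      rintro ⟨x, hx⟩
      have hxu : x ∉ u := hx.2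
      have key : ∀ s ∈ S, ∀ hs : s ∉ u, H.Reachable ⟨s, hmem s hs⟩ ⟨s0, hmem s0 hs0u⟩ := by
        intro s hs hsu
        by_cases h : s = s0
        · subst h; exact SimpleGraph.Reachable.refl _
        · exact (adjH s s0 hsu hs0u (hclq S hS s hs s0 hs0 h)).reachable
      by_cases hxS : x ∈ S
      · exact key x hxS hxu
      · obtain ⟨s, hs, hadj⟩ := hdom S hS x hxS
        exact (adjH x s hxu (hcon s hs) hadj).reachable.trans (key s hs (hcon s hs))
    have hsub : Subsingleton H.ConnectedComponent := by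
      constructor
      intro c c'
      induction c using SimpleGraph.ConnectedComponent.ind with | _ a
      induction c' using SimpleGraph.ConnectedComponent.ind with | _ b
      exact SimpleGraph.ConnectedComponent.sound ((hreach a).trans (hreach b).symm)
    have hle : H.oddComponents.ncard ≤ 1 := Set.ncard_le_one_of_subsingleton _
    have hu0 : u.ncard = 0 := by omega
    have hone : H.oddComponents.ncard = 1 := by omega
    have hue : u = ∅ := (Set.ncard_eq_zero (Set.toFinite u)).mp hu0
    have hodd : Odd (Nat.card ((⊤ : D.Subgraph).deleteVerts u).verts) := by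
      rw [← SimpleGraph.odd_ncard_oddComponents (G := H), hone]
      exact odd_one
    have hcard : Nat.card ((⊤ : D.Subgraph).deleteVerts u).verts = Nat.card U := by
      subst hue
      simp
    rw [hcard] at hodd
    exact (Nat.not_odd_iff_even.mpr hev) hodd
  -- an odd component without vertices of `⋃ T`
  obtain ⟨c, hc, hcT⟩ : ∃ c ∈ H.oddComponents, ∀ x ∈ c.supp, ∀ S ∈ T, (x : U) ∉ S := by
    by_contra hcon
    push Not at hcon
    choose x hx S hS hxS using hcon
    choose g hg hgu using hhit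
    have : H.oddComponents.ncard ≤ u.ncard := by
      rw [← Nat.card_coe_set_eq, ← Nat.card_coe_set_eq]
      refine Nat.card_le_card_of_injective
        (fun c : H.oddComponents => (⟨g (S c.1 c.2) (hS c.1 c.2), hgu _ _⟩ : u)) ?_
      rintro ⟨c, hc⟩ ⟨c', hc'⟩ heq
      have heq' : g (S c hc) (hS c hc) = g (S c' hc') (hS c' hc') := by
        simpa using congrArg Subtype.val heq
      have hSS : S c hc = S c' hc' := by
        refine hdisj _ (hS c hc) _ (hS c' hc') (g (S c hc) (hS c hc)) (hg _ _) ?_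
        rw [heq']; exact hg _ _
      have h1 : H.connectedComponentMk (x c hc) = c := hx c hc
      have h2 : H.connectedComponentMk (x c' hc') = c' := hx c' hc'
      have h3 : H.Reachable (x c hc) (x c' hc') := by
        by_cases he : (x c hc) = (x c' hc')
        · rw [he]
        · refine (adjH (x c hc) (x c' hc') (x c hc).2.2 (x c' hc').2.2 ?_).reachable
          refine hclq _ (hS c hc) _ (hxS c hc) _ ?_ (fun h => he (Subtype.ext h))
          rw [hSS]; exact hxS c' hc'
      have : c = c' := by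
        rw [← h1, ← h2]; exact SimpleGraph.ConnectedComponent.sound h3
      exact Subtype.ext this
    omega
  obtain ⟨v, hv⟩ := c.nonempty_supp
  have hvT : ∀ S ∈ T, (v : U) ∉ S := fun S hS => hcT v hv S hS
  -- bases of `v` lie in `u`
  have hbase : ∀ a : U, D.Adj v a → (∃ S ∈ T, a ∈ S) → a ∈ u := by
    intro a hva ⟨S, hS, haS⟩
    by_contra hau
    have hadj := adjH v a v.2.2 hau hva
    have : (⟨a, hmem a hau⟩ : ((⊤ : D.Subgraph).deleteVerts u).verts) ∈ c.supp := by
      rw [SimpleGraph.ConnectedComponent.mem_supp_iff] at hv ⊢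
      rw [← hv]
      exact (SimpleGraph.ConnectedComponent.sound hadj.reachable).symm
    exact hcT _ this S hS haS
  have hviol : (E v).IsTutteViolator u := by
    unfold SimpleGraph.IsTutteViolator
    refine lt_of_lt_of_le hu ?_
    have hle : (((⊤ : (E v).Subgraph).deleteVerts u).coe : SimpleGraph (Set.univ \ u : Set U)) ≤
        (((⊤ : D.Subgraph).deleteVerts u).coe : SimpleGraph (Set.univ \ u : Set U)) := by
      intro a b hab
      have hab' : (E v).Adj a.1 b.1 := by
        have := SimpleGraph.Subgraph.coe_adj_sub _ _ _ hab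
        exact this
      have hD : D.Adj a.1 b.1 := by
        rcases hE v a.1 b.1 hvT hab' with h | h | h
        · exact h
        · exact absurd (hbase _ h.1 h.2) a.2.2
        · exact absurd (hbase _ h.1 h.2) b.2.2
      exact adjH a.1 b.1 a.2.2 b.2.2 hD
    exact SimpleGraph.ncard_oddComponents_mono (V := (Set.univ \ u : Set U)) _ hle
  have := hpm v hvT
  rw [SimpleGraph.tutte] at this
  exact this u hviol

end matching

section main

set_option linter.unusedSectionVars false

variable {V : Type*} [Fintype V] [DecidableEq V]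

/-- the three elements of a triad cannot all be adjacent to one vertex -/
theorem exists_nonadj {G : SimpleGraph V} (hG : ClawFree G) {S : Finset V} (hS3 : 3 ≤ S.card)
    (hS : ∀ x ∈ S, ∀ y ∈ S, ¬ G.Adj x y) (w : V) : ∃ s ∈ S, ¬ G.Adj w s := by
  by_contra hcon
  push Not at hcon
  obtain ⟨T, hTS, hT⟩ := Finset.exists_subset_card_eq hS3
  obtain ⟨x, y, z, hxy, hxz, hyz, rfl⟩ := Finset.card_eq_three.mp hT
  have hx : x ∈ S := hTS (by simp)
  have hy : y ∈ S := hTS (by simp)
  have hz : z ∈ S := hTS (by simp)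
  rcases hG w x y z (hcon x hx) (hcon y hy) (hcon z hz) hxy hxz hyz with h | h | h
  · exact hS x hx y hy h
  · exact hS x hx z hz h
  · exact hS y hy z hz h

/-- stable sets have at most three vertices -/
theorem stable_card_le {G : SimpleGraph V}
    (hT : ∀ S S' : Finset V, IsTriad G S → IsTriad G S' → S ≠ S' → Disjoint S S')
    {A : Finset V} (hA : ∀ x ∈ A, ∀ y ∈ A, ¬ G.Adj x y) : A.card ≤ 3 := by
  by_contra hcon
  push Not at hcon
  obtain ⟨B, hBA, hB⟩ := Finset.exists_subset_card_eq (show 4 ≤ A.card from hcon)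
  obtain ⟨a, ha⟩ : B.Nonempty := by rw [← Finset.card_pos]; omega
  have h3 : (B.erase a).card = 3 := by rw [Finset.card_erase_of_mem ha]; omega
  obtain ⟨b, hb⟩ : (B.erase a).Nonempty := by rw [← Finset.card_pos]; omega
  have hbB : b ∈ B := Finset.mem_of_mem_erase hb
  have hab : b ≠ a := Finset.ne_of_mem_erase hb
  have h3' : (B.erase b).card = 3 := by rw [Finset.card_erase_of_mem hbB]; omega
  have h1 : IsTriad G (B.erase a) := ⟨h3, fun x hx y hy =>
    hA x (hBA (Finset.mem_of_mem_erase hx)) y (hBA (Finset.mem_of_mem_erase hy))⟩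
  have h2 : IsTriad G (B.erase b) := ⟨h3', fun x hx y hy =>
    hA x (hBA (Finset.mem_of_mem_erase hx)) y (hBA (Finset.mem_of_mem_erase hy))⟩
  have hne : B.erase a ≠ B.erase b := by
    intro h
    have : b ∈ B.erase b := h ▸ hb
    exact (Finset.notMem_erase b B) this
  have hd := hT _ _ h1 h2 hne
  have hcard : (B.erase a ∪ B.erase b).card = 6 := by
    rw [Finset.card_union_of_disjoint hd, h3, h3']
  have hsub : B.erase a ∪ B.erase b ⊆ B :=
    Finset.union_subset (Finset.erase_subset _ _) (Finset.erase_subset _ _)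
  have := Finset.card_le_card hsub
  omega

/-- a balanced colouring: all classes have two or three vertices -/
theorem exists_balanced {G : SimpleGraph V} (hG : ClawFree G)
    (hT : ∀ S S' : Finset V, IsTriad G S → IsTriad G S' → S ≠ S' → Disjoint S S')
    {c : ℕ} (hc : 2 * c ≤ Fintype.card V) (hcol : G.Colorable c) :
    ∃ f : V → Fin c, (∀ a b, G.Adj a b → f a ≠ f b) ∧
      ∀ i, (univ.filter (fun x => f x = i)).card = 2 ∨ (univ.filter (fun x => f x = i)).card = 3 := by
  classical
  obtain ⟨C⟩ := hcol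
  have hnon : ({f : V → Fin c | ∀ a b, G.Adj a b → f a ≠ f b}).Nonempty :=
    ⟨C, fun a b h => C.valid h⟩
  obtain ⟨f, hf, hmin⟩ := Set.exists_min_image _
    (fun f : V → Fin c => ∑ i, ((univ.filter (fun x => f x = i)).card) ^ 2)
    (Set.toFinite {f : V → Fin c | ∀ a b, G.Adj a b → f a ≠ f b}) hnon
  refine ⟨f, hf, ?_⟩
  have hstab : ∀ i, ∀ x ∈ univ.filter (fun x => f x = i), ∀ y ∈ univ.filter (fun x => f x = i),
      ¬ G.Adj x y := by
    intro i x hx y hy h
    simp only [mem_filter, mem_univ, true_and] at hx hy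
    exact hf x y h (hx.trans hy.symm)
  have hle3 : ∀ i, (univ.filter (fun x => f x = i)).card ≤ 3 := fun i =>
    stable_card_le hT (hstab i)
  have hsum : ∑ i : Fin c, (univ.filter (fun x => f x = i)).card = Fintype.card V := by
    rw [← Finset.card_univ (α := V)]
    exact (Finset.card_eq_sum_card_fiberwise (f := f) (s := univ) (t := univ)
      (fun x _ => by simp)).symm
  have hge2 : ∀ i, 2 ≤ (univ.filter (fun x => f x = i)).card := by
    intro j
    by_contra hj
    push Not at hj
    -- a class with at least three vertices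
    obtain ⟨i, hi⟩ : ∃ i, 3 ≤ (univ.filter (fun x => f x = i)).card := by
      by_contra hcon
      push Not at hcon
      have h1 : ∑ i : Fin c, (univ.filter (fun x => f x = i)).card < ∑ _i : Fin c, 2 := by
        refine Finset.sum_lt_sum (fun i _ => by have := hcon i; omega) ⟨j, mem_univ _, hj⟩
      rw [hsum] at h1
      simp at h1
      omega
    have hij : i ≠ j := by rintro rfl; omega
    -- a vertex of class `i` without neighbours in class `j`
    obtain ⟨x, hx, hxj⟩ : ∃ x ∈ univ.filter (fun x => f x = i), ∀ w, f w = j → ¬ G.Adj x w := by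
      by_cases hjn : (univ.filter (fun x => f x = j)).Nonempty
      · obtain ⟨w, hw⟩ := hjn
        obtain ⟨x, hx, hxw⟩ := exists_nonadj hG hi (hstab i) w
        refine ⟨x, hx, fun w' hw' h => ?_⟩
        have hw1 : w' ∈ univ.filter (fun x => f x = j) := by simp [hw']
        have : w' = w := Finset.card_le_one.mp (by omega) w' hw1 w hw
        subst this
        exact hxw h.symm
      · obtain ⟨x, hx⟩ : (univ.filter (fun x => f x = i)).Nonempty := by
          rw [← Finset.card_pos]; omega
        refine ⟨x, hx, fun w hw _ => hjn ⟨w, by simp [hw]⟩⟩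
    have hxi : f x = i := by simpa using hx
    set f' := Function.update f x j with hf'
    have hf'p : f' ∈ {f : V → Fin c | ∀ a b, G.Adj a b → f a ≠ f b} := by
      intro a b hab
      by_cases ha : a = x
      · subst ha
        have hb : b ≠ a := hab.ne'
        rw [hf', Function.update_self, Function.update_of_ne hb]
        intro h
        exact hxj b h.symm hab
      · by_cases hb : b = x
        · subst hb
          rw [hf', Function.update_self, Function.update_of_ne ha]
          intro h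
          exact hxj a h hab.symm
        · rw [hf', Function.update_of_ne ha, Function.update_of_ne hb]
          exact hf a b hab
    have hm := hmin f' hf'p
    have ei : univ.filter (fun y => f' y = i) = (univ.filter (fun y => f y = i)).erase x := by
      ext y
      by_cases hy : y = x
      · subst hy
        simp [hf', hij.symm]
      · simp [hf', hy]
    have ej : univ.filter (fun y => f' y = j) = insert x (univ.filter (fun y => f y = j)) := by
      ext y
      by_cases hy : y = x
      · subst hy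
        simp [hf']
      · simp [hf', hy]
    have ek : ∀ k, k ≠ i → k ≠ j →
        univ.filter (fun y => f' y = k) = univ.filter (fun y => f y = k) := by
      intro k hki hkj
      ext y
      by_cases hy : y = x
      · subst hy
        simp [hf', hxi, hki.symm, hkj.symm]
      · simp [hf', hy]
    have hsplit : ∀ g : Fin c → ℕ, ∑ k, g k = g i + (g j + ∑ k ∈ (univ.erase i).erase j, g k) := by
      intro g
      rw [← Finset.add_sum_erase univ g (mem_univ i),
        ← Finset.add_sum_erase (univ.erase i) g (a := j) (by simp [hij.symm])]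
    rw [hsplit, hsplit (fun k => (univ.filter (fun y => f' y = k)).card ^ 2)] at hm
    have hrest : ∑ k ∈ (univ.erase i).erase j, (univ.filter (fun y => f' y = k)).card ^ 2 =
        ∑ k ∈ (univ.erase i).erase j, (univ.filter (fun y => f y = k)).card ^ 2 := by
      refine Finset.sum_congr rfl fun k hk => ?_
      simp only [mem_erase, mem_univ, and_true] at hk
      rw [ek k hk.2 hk.1]
    rw [hrest, ei, ej, Finset.card_erase_of_mem hx, Finset.card_insert_of_notMem
      (by simp [hxi, hij])] at hm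
    have h3 := hle3 i
    have e3 : (univ.filter (fun x => f x = i)).card = 3 := by omega
    rw [e3] at hm
    interval_cases h : (univ.filter (fun x => f x = j)).card <;> omega
  intro i
  have := hle3 i
  have := hge2 i
  omega

theorem card_closed {G : SimpleGraph V}
    (hT : ∀ S S' : Finset V, IsTriad G S → IsTriad G S' → S ≠ S' → Disjoint S S')
    {𝒞 : Finset (Finset V)} (h𝒞 : ∀ S ∈ 𝒞, IsTriad G S) :
    (univ.filter (fun x => ∀ S ∈ 𝒞, x ∉ S)).card + 3 * 𝒞.card = Fintype.card V := by
  classical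
  have h1 : (𝒞.biUnion (fun S => S)).card = 3 * 𝒞.card := by
    rw [Finset.card_biUnion (fun S hS S' hS' hne => hT S S' (h𝒞 S hS) (h𝒞 S' hS') hne)]
    rw [Finset.sum_congr rfl (fun S hS => (h𝒞 S hS).1)]
    simp [mul_comm]
  have h2 : univ.filter (fun x => ∀ S ∈ 𝒞, x ∉ S) = (𝒞.biUnion (fun S => S))ᶜ := by
    ext x; simp
  rw [h2, ← h1, add_comm]
  exact Finset.card_add_card_compl _

/-- from local pairings to a pairing -/
theorem pairsOff_of_local {G : SimpleGraph V} (hG : ClawFree G)
    (hT : ∀ S S' : Finset V, IsTriad G S → IsTriad G S' → S ≠ S' → Disjoint S S')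
    {𝒞 : Finset (Finset V)} (h𝒞 : ∀ S ∈ 𝒞, IsTriad G S) {c : ℕ}
    (hcard : 𝒞.card + 2 * c = Fintype.card V)
    (hloc : ∀ v, (∀ S, IsTriad G S → v ∉ S) → PairsOff (relax G v) 𝒞) : PairsOff G 𝒞 := by
  classical
  let U := {x : V // ∀ S ∈ 𝒞, x ∉ S}
  let D : SimpleGraph U := (Gᶜ).comap Subtype.val
  let T : Set (Set U) := {s | ∃ S : Finset V, IsTriad G S ∧ S ∉ 𝒞 ∧ s = {x : U | x.1 ∈ S}}
  let E : U → SimpleGraph U := fun v => ((relax G v.1)ᶜ).comap Subtype.val
  have hmemU : ∀ S : Finset V, IsTriad G S → S ∉ 𝒞 → ∀ x ∈ S, ∀ S' ∈ 𝒞, x ∉ S' := by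
    intro S hS hSC x hx S' hS' hx'
    have hne : S ≠ S' := by rintro rfl; exact hSC hS'
    exact (Finset.disjoint_left.mp (hT S S' hS (h𝒞 S' hS') hne)) hx hx'
  have hcU : Nat.card U + 3 * 𝒞.card = Fintype.card V := by
    rw [← card_closed hT h𝒞, Nat.card_eq_fintype_card, Fintype.card_subtype]
  have hev : Even (Nat.card U) := by
    refine ⟨c - 𝒞.card, ?_⟩
    omega
  have hpm : ∃ M : D.Subgraph, M.IsPerfectMatching := by
    refine local_tutte D hev T ?_ ?_ ?_ ?_ E ?_ ?_
    · rintro s ⟨S, hS, hSC, rfl⟩ s' ⟨S', hS', hSC', rfl⟩ x hx hx'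
      have : S = S' := by
        by_contra hne
        exact (Finset.disjoint_left.mp (hT S S' hS hS' hne)) hx hx'
      rw [this]
    · rintro s ⟨S, hS, hSC, rfl⟩ x hx y hy hxy
      exact ⟨fun h => hxy (Subtype.ext h), hS.2 x.1 hx y.1 hy⟩
    · rintro s ⟨S, hS, hSC, rfl⟩ w hw
      obtain ⟨t, ht, hadj⟩ := exists_nonadj hG (le_of_eq hS.1.symm) hS.2 w.1
      refine ⟨⟨t, hmemU S hS hSC t ht⟩, ht, ?_, hadj⟩
      rintro h
      exact hw (by show w.1 ∈ S; rw [h]; exact ht)
    · rintro s ⟨S, hS, hSC, rfl⟩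
      obtain ⟨t, ht⟩ : S.Nonempty := by rw [← Finset.card_pos, hS.1]; norm_num
      exact ⟨⟨t, hmemU S hS hSC t ht⟩, ht⟩
    · intro v a b hv hab
      have hv' : ∀ S, IsTriad G S → v.1 ∉ S := by
        intro S hS hvS
        by_cases hSC : S ∈ 𝒞
        · exact v.2 S hSC hvS
        · exact hv _ ⟨S, hS, hSC, rfl⟩ hvS
      have key : ∀ x : U, Base G v.1 x.1 → (D.Adj v x ∧ ∃ s ∈ T, x ∈ s) := by
        rintro x ⟨⟨S, hS, hxS⟩, hnadj⟩
        refine ⟨⟨?_, hnadj⟩, {y : U | y.1 ∈ S}, ⟨S, hS, ?_, rfl⟩, hxS⟩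
        · intro h; exact hv' S hS (h ▸ hxS)
        · intro hSC; exact x.2 S hSC hxS
      by_cases hA : Base G v.1 a.1
      · exact Or.inr (Or.inl (key a hA))
      · by_cases hB : Base G v.1 b.1
        · exact Or.inr (Or.inr (key b hB))
        · left
          refine ⟨hab.1, fun h => hab.2 ⟨h, hA, hB⟩⟩
    · intro v hv
      have hv' : ∀ S, IsTriad G S → v.1 ∉ S := by
        intro S hS hvS
        by_cases hSC : S ∈ 𝒞
        · exact v.2 S hSC hvS
        · exact hv _ ⟨S, hS, hSC, rfl⟩ hvS
      obtain ⟨m, hm⟩ := hloc v.1 hv'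
      rw [exists_perfect_iff]
      refine ⟨fun x => ⟨m x.1, (hm x.1 x.2).1⟩, fun x => ⟨⟨?_, (hm x.1 x.2).2.2.1⟩, ?_⟩⟩
      · exact (hm x.1 x.2).2.1.symm
      · exact Subtype.ext (hm x.1 x.2).2.2.2
  rw [exists_perfect_iff] at hpm
  obtain ⟨m, hm⟩ := hpm
  let m' : V → V := fun x => if h : ∀ S ∈ 𝒞, x ∉ S then (m ⟨x, h⟩).1 else x
  have hm' : ∀ x (hx : ∀ S ∈ 𝒞, x ∉ S), m' x = (m ⟨x, hx⟩).1 := by
    intro x hx
    simp only [m']
    rw [dif_pos hx]
  refine ⟨m', fun x hx => ?_⟩
  have hmx := hm ⟨x, hx⟩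
  have h1 : ∀ S ∈ 𝒞, m' x ∉ S := by rw [hm' x hx]; exact (m ⟨x, hx⟩).2
  refine ⟨h1, ?_, ?_, ?_⟩
  · rw [hm' x hx]; exact fun h => hmx.1.1 h.symm
  · rw [hm' x hx]; exact hmx.1.2
  · rw [hm' (m' x) h1]
    have e : (⟨m' x, h1⟩ : U) = m ⟨x, hx⟩ := Subtype.ext (hm' x hx)
    rw [e]
    exact congrArg Subtype.val hmx.2

/-- from a pairing to a colouring -/
theorem colorable_of_pairsOff {G : SimpleGraph V}
    (hT : ∀ S S' : Finset V, IsTriad G S → IsTriad G S' → S ≠ S' → Disjoint S S')
    {𝒞 : Finset (Finset V)} (h𝒞 : ∀ S ∈ 𝒞, IsTriad G S) {c : ℕ}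
    (hcard : 𝒞.card + 2 * c = Fintype.card V) (hp : PairsOff G 𝒞) : G.Colorable c := by
  classical
  obtain ⟨m, hm⟩ := hp
  let col : V → Finset V := fun x => if h : ∃ S ∈ 𝒞, x ∈ S then h.choose else {x, m x}
  have col1 : ∀ x, ∀ S ∈ 𝒞, x ∈ S → col x = S := by
    intro x S hS hx
    have h : ∃ S ∈ 𝒞, x ∈ S := ⟨S, hS, hx⟩
    have e : col x = h.choose := by simp only [col]; rw [dif_pos h]
    rw [e]
    by_contra hne
    exact (Finset.disjoint_left.mp (hT _ _ (h𝒞 _ h.choose_spec.1) (h𝒞 S hS) hne))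
      h.choose_spec.2 hx
  have col2 : ∀ x, (∀ S ∈ 𝒞, x ∉ S) → col x = {x, m x} := by
    intro x hx
    have h : ¬ ∃ S ∈ 𝒞, x ∈ S := by push Not; exact hx
    simp only [col]; rw [dif_neg h]
  have hcolmem : ∀ x, x ∈ col x := by
    intro x
    by_cases h : ∃ S ∈ 𝒞, x ∈ S
    · obtain ⟨S, hS, hx⟩ := h
      rw [col1 x S hS hx]; exact hx
    · push Not at h
      rw [col2 x h]; simp
  have hstab : ∀ x, ∀ a ∈ col x, ∀ b ∈ col x, ¬ G.Adj a b := by
    intro x
    by_cases h : ∃ S ∈ 𝒞, x ∈ S
    · obtain ⟨S, hS, hx⟩ := h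
      rw [col1 x S hS hx]
      exact (h𝒞 S hS).2
    · push Not at h
      rw [col2 x h]
      have h1 := (hm x h).2.2.1
      intro a ha b hb
      simp only [mem_insert, mem_singleton] at ha hb
      rcases ha with rfl | rfl <;> rcases hb with rfl | rfl
      · exact G.loopless.irrefl _
      · exact h1
      · exact fun h => h1 h.symm
      · exact G.loopless.irrefl _
  have hK : (univ.image col).card ≤ c := by
    have hsub : univ.image col ⊆ 𝒞 ∪ (univ.filter (fun x => ∀ S ∈ 𝒞, x ∉ S)).image
        (fun x => ({x, m x} : Finset V)) := by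
      intro b hb
      obtain ⟨x, -, rfl⟩ := Finset.mem_image.mp hb
      by_cases h : ∃ S ∈ 𝒞, x ∈ S
      · obtain ⟨S, hS, hx⟩ := h
        rw [col1 x S hS hx]
        exact Finset.mem_union_left _ hS
      · push Not at h
        rw [col2 x h]
        refine Finset.mem_union_right _ (Finset.mem_image.mpr ⟨x, ?_, rfl⟩)
        simp only [mem_filter, mem_univ, true_and]
        exact h
    have h2 : 2 * ((univ.filter (fun x => ∀ S ∈ 𝒞, x ∉ S)).image
        (fun x => ({x, m x} : Finset V))).card ≤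
        (univ.filter (fun x => ∀ S ∈ 𝒞, x ∉ S)).card := by
      refine Finset.mul_card_image_le_card _ _ ?_
      intro b hb
      obtain ⟨x, hx, rfl⟩ := Finset.mem_image.mp hb
      simp only [mem_filter, mem_univ, true_and] at hx
      have hmx := hm x hx
      have hsub2 : ({x, m x} : Finset V) ⊆
          (univ.filter (fun x => ∀ S ∈ 𝒞, x ∉ S)).filter
            (fun y => ({y, m y} : Finset V) = {x, m x}) := by
        intro y hy
        simp only [mem_insert, mem_singleton] at hy
        simp only [mem_filter, mem_univ, true_and]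
        rcases hy with rfl | rfl
        · exact ⟨hx, rfl⟩
        · refine ⟨hmx.1, ?_⟩
          rw [hmx.2.2.2]
          exact Finset.pair_comm _ _
      have h2 : ({x, m x} : Finset V).card = 2 := Finset.card_pair hmx.2.1.symm
      rw [← h2]
      exact Finset.card_le_card hsub2
    have h3 := Finset.card_le_card hsub
    have h4 := Finset.card_union_le 𝒞 ((univ.filter (fun x => ∀ S ∈ 𝒞, x ∉ S)).image
        (fun x => ({x, m x} : Finset V)))
    have h5 := card_closed hT h𝒞
    omega
  have hcol : G.Colorable (univ.image col).card := by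
    have C : G.Coloring {b // b ∈ univ.image col} :=
      SimpleGraph.Coloring.mk (fun x => ⟨col x, Finset.mem_image_of_mem _ (mem_univ x)⟩) (by
        intro a b hab heq
        have heq' : col a = col b := congrArg Subtype.val heq
        exact hstab b a (heq' ▸ hcolmem a) b (hcolmem b) hab)
    have := C.colorable
    rw [Fintype.card_coe] at this
    exact this
  exact hcol.mono hK

/-- from a colouring to triads and a pairing -/
theorem pairsOff_of_colorable {G : SimpleGraph V} (hG : ClawFree G)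
    (hT : ∀ S S' : Finset V, IsTriad G S → IsTriad G S' → S ≠ S' → Disjoint S S')
    {c : ℕ} (hc : 2 * c ≤ Fintype.card V) (hcol : G.Colorable c) :
    ∃ 𝒞 : Finset (Finset V), (∀ S ∈ 𝒞, IsTriad G S) ∧ 𝒞.card + 2 * c = Fintype.card V ∧
      PairsOff G 𝒞 := by
  classical
  obtain ⟨f, hf, hbal⟩ := exists_balanced hG hT hc hcol
  let A : Fin c → Finset V := fun i => univ.filter (fun x => f x = i)
  have hA : ∀ i x, x ∈ A i ↔ f x = i := fun i x => by simp [A]
  have hAstab : ∀ i, ∀ x ∈ A i, ∀ y ∈ A i, ¬ G.Adj x y := by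
    intro i x hx y hy h
    rw [hA] at hx hy
    exact hf x y h (hx.trans hy.symm)
  have hAcard : ∀ i, (A i).card = 2 ∨ (A i).card = 3 := hbal
  let I := univ.filter (fun i : Fin c => (A i).card = 3)
  have hinj : Set.InjOn A (I : Set (Fin c)) := by
    intro i hi j hj hij
    have h3 : (A i).card = 3 := by simpa [I] using hi
    obtain ⟨x, hx⟩ : (A i).Nonempty := by rw [← Finset.card_pos]; omega
    have h1 := (hA i x).mp hx
    rw [hij] at hx
    have h2 := (hA j x).mp hx
    exact h1.symm.trans h2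
  have hsum : ∑ i : Fin c, (A i).card = Fintype.card V := by
    rw [← Finset.card_univ (α := V)]
    exact (Finset.card_eq_sum_card_fiberwise (f := f) (s := univ) (t := univ)
      (fun x _ => by simp)).symm
  have hIcard : I.card + 2 * c = Fintype.card V := by
    rw [← hsum]
    have : ∀ i ∈ (univ : Finset (Fin c)), (A i).card = 2 + (if (A i).card = 3 then 1 else 0) := by
      intro i _
      rcases hAcard i with h | h <;> simp [h]
    rw [Finset.sum_congr rfl this, Finset.sum_add_distrib, Finset.sum_const, Finset.card_univ,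
      Fintype.card_fin, ← Finset.card_filter]
    simp only [I, smul_eq_mul]
    ring
  refine ⟨I.image A, ?_, ?_, ?_⟩
  · intro S hS
    obtain ⟨i, hi, rfl⟩ := Finset.mem_image.mp hS
    exact ⟨by simpa [I] using hi, hAstab i⟩
  · rw [Finset.card_image_of_injOn hinj]; exact hIcard
  · have hex : ∀ x, (∀ S ∈ I.image A, x ∉ S) → ∃ y, f y = f x ∧ y ≠ x ∧
        ∀ z, f z = f x → z = x ∨ z = y := by
      intro x hx
      have h2 : (A (f x)).card = 2 := by
        rcases hAcard (f x) with h | h
        · exact h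
        · exfalso
          refine hx (A (f x)) (Finset.mem_image_of_mem _ ?_) ((hA _ _).mpr rfl)
          simp only [I, mem_filter, mem_univ, true_and]
          exact h
      have hxA : x ∈ A (f x) := (hA _ _).mpr rfl
      have h1 : ((A (f x)).erase x).card = 1 := by
        rw [Finset.card_erase_of_mem hxA]; omega
      obtain ⟨y, hy⟩ := Finset.card_eq_one.mp h1
      have hyA : y ∈ (A (f x)).erase x := by rw [hy]; simp
      refine ⟨y, (hA _ _).mp (Finset.mem_of_mem_erase hyA), Finset.ne_of_mem_erase hyA, ?_⟩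
      intro z hz
      by_cases hzx : z = x
      · exact Or.inl hzx
      · right
        have : z ∈ (A (f x)).erase x := Finset.mem_erase.mpr ⟨hzx, (hA _ _).mpr hz⟩
        rw [hy] at this
        simpa using this
    let m : V → V := fun x => if h : (∀ S ∈ I.image A, x ∉ S) then (hex x h).choose else x
    refine ⟨m, fun x hx => ?_⟩
    have em : m x = (hex x hx).choose := by simp only [m]; rw [dif_pos hx]
    obtain ⟨h1, h2, h3⟩ := (hex x hx).choose_spec
    rw [← em] at h1 h2 h3
    have hmx : ∀ S ∈ I.image A, m x ∉ S := by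
      intro S hS hmS
      obtain ⟨i, hi, rfl⟩ := Finset.mem_image.mp hS
      refine hx (A i) hS ?_
      rw [hA] at hmS ⊢
      rw [← h1]; exact hmS
    have em' : m (m x) = (hex (m x) hmx).choose := by
      conv_lhs => simp only [m]
      rw [dif_pos hmx]
    obtain ⟨h1', h2', -⟩ := (hex (m x) hmx).choose_spec
    rw [← em'] at h1' h2'
    refine ⟨hmx, h2, ?_, ?_⟩
    · intro h; exact hf _ _ h h1.symm
    · rcases h3 (m (m x)) (h1'.trans h1) with h | h
      · exact h
      · exact absurd h h2'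

end main

/-- Let `G` be a finite claw-free graph whose triads are pairwise disjoint, and `2c ≤ |V|`. Then
`G` is `c`-colourable iff there is a set `𝒞` of `|V| - 2c` triads such that for every vertex `v`
in no triad the vertices outside `𝒞` can be grouped into pairs nonadjacent in `relax G v`. -/
theorem result {V : Type*} [Fintype V] (G : SimpleGraph V) (hG : ClawFree G)
    (hT : ∀ S S' : Finset V, IsTriad G S → IsTriad G S' → S ≠ S' → Disjoint S S')
    (c : ℕ) (hc : 2 * c ≤ Fintype.card V) :
    G.Colorable c ↔ ∃ 𝒞 : Finset (Finset V), (∀ S ∈ 𝒞, IsTriad G S) ∧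
      𝒞.card + 2 * c = Fintype.card V ∧
      ∀ v, (∀ S, IsTriad G S → v ∉ S) → PairsOff (relax G v) 𝒞 := by
  classical
  constructor
  · intro hcol
    obtain ⟨𝒞, h1, h2, m, hm⟩ := pairsOff_of_colorable hG hT hc hcol
    refine ⟨𝒞, h1, h2, fun v _ => ⟨m, fun x hx => ?_⟩⟩
    obtain ⟨a, b, d, e⟩ := hm x hx
    exact ⟨a, b, fun h => d h.1, e⟩
  · rintro ⟨𝒞, h1, h2, h3⟩
    exact colorable_of_pairsOff hT h1 h2 (pairsOff_of_local hG hT h1 h2 h3)

end Pool.Agent.Results.MP_69cc7e_lc.VertexLocal
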